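import Pool.Agent.H62.NS.Floor

/-!
The last step of MP_3ea55a_an: averages over `Icc 1 N` and general bounded functions.
-/

set_option autoImplicit false
set_option linter.unusedSectionVars false

open MeasureTheory Finset
open scoped BigOperators

namespace Pool.Agent.H62.NS

open Pool.Agent.H63.NS

variable {X Y : Type} [MeasurableSpace X] [MeasurableSpace Y] {ν : Measure Y}
    [IsProbabilityMeasure ν] {μ : Measure X} [IsProbabilityMeasure μ] {T : X ≃ᵐ X} {F : Flow ν} {th : Y → ℝ} {p : Y → X}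

variable {ℓ : ℕ}

lemma Icc_av (g : ℕ → ℝ) (N : ℕ) :
    (1 / (N : ℝ)) * ∑ n ∈ Finset.Icc 1 N, g n = av (range N) g + 1 / N * (g N - g 0) := by
  have e1 : ∑ n ∈ Finset.Icc 1 N, g n = ∑ n ∈ range N, g (n + 1) := by
    rw [Finset.range_eq_Ico, Finset.sum_Ico_add' g 0 N 1]
    rfl
  rw [e1, sum_shift]
  unfold av
  rw [Finset.card_range, smul_eq_mul]
  ring

/-- the averages of the frozen statement -/
noncomputable def bX (T : X ≃ᵐ X) (f : Fin ℓ → X → ℝ) (N : ℕ) (x : X) : ℝ :=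
  (1 / (N : ℝ)) * ∑ n ∈ Finset.Icc 1 N, phi T f (un n) x

lemma bX_eq (f : Fin ℓ → X → ℝ) (N : ℕ) (x : X) :
    bX T f N x = aX T f un N x + 1 / N * (phi T f (un N) x - phi T f (un 0) x) := by
  unfold bX aX
  rw [Icc_av (fun n => phi T f (un n) x) N]

lemma bX_meas {f : Fin ℓ → X → ℝ} (hf : ∀ i, Measurable (f i)) (N : ℕ) : Measurable (bX T f N) := by
  have e : bX T f N = fun x => (N + 1) * (1 / N) * aX T f un (N + 1) x - 1 / N * aX T f un 1 x := by
    funext x
    unfold bX aX av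
    rw [Finset.card_range, Finset.card_range, Finset.range_one, Finset.sum_singleton, smul_eq_mul, smul_eq_mul]
    have h1 : ∑ n ∈ range (N + 1), phi T f (un n) x = ∑ n ∈ Finset.Icc 1 N, phi T f (un n) x + phi T f (un 0) x := by
      rw [Finset.sum_range_succ', Finset.range_eq_Ico, Finset.sum_Ico_add' (fun n => phi T f (un n) x) 0 N 1]
      rfl
    rw [h1]
    have h2 : ((N : ℝ) + 1) ≠ 0 := by positivity
    push_cast
    field_simp
    ring
  rw [e]
  exact ((aX_meas hf un (N + 1)).const_mul _).sub ((aX_meas hf un 1).const_mul _)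

lemma bX_abs {f : Fin ℓ → X → ℝ} (hb : ∀ i x, |f i x| ≤ 1) (N : ℕ) (x : X) : |bX T f N x| ≤ 1 := by
  unfold bX
  have h := abs_av_le' (s := Finset.Icc 1 N) (f := fun n => phi T f (un n) x) zero_le_one (fun m _ => phi_abs hb _ _)
  unfold av at h
  rwa [Nat.card_Icc, Nat.add_sub_cancel, smul_eq_mul, ← one_div] at h

theorem bX_cauchy (hS : IsSusp μ T F th p) (hPM : PetMain F) (hFC : FlowCauchy F) {f : Fin ℓ → X → ℝ}
    (hf : ∀ i, Measurable (f i)) (hb : ∀ i x, |f i x| ≤ 1) (ε : ℝ) (hε : 0 < ε) :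
    ∃ M : ℕ, ∀ N ≥ M, ∀ N' ≥ M, ∫ x, (bX T f N x - bX T f N' x) ^ 2 ∂μ ≤ ε := by
  obtain ⟨M, hM⟩ := aX_cauchy hS hPM hFC hf hb (ε / 4) (by positivity)
  obtain ⟨K, hK⟩ := exists_nat_ge (16 / ε)
  refine ⟨max M (max K 4), fun N hN N' hN' => ?_⟩
  have h1 := hM N ((le_max_left _ _).trans hN) N' ((le_max_left _ _).trans hN')
  have hsm : ∀ n : ℕ, max M (max K 4) ≤ n → 1 / (n : ℝ) ≤ 1 / 4 ∧ 1 / (n : ℝ) ≤ ε / 16 := by
    intro n hn
    have h4 : (4 : ℝ) ≤ n := by exact_mod_cast ((le_max_right _ _).trans (le_max_right _ _)).trans hn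
    have h5 : 16 / ε ≤ n := hK.trans (by exact_mod_cast ((le_max_left _ _).trans (le_max_right _ _)).trans hn)
    constructor
    · exact one_div_le_one_div_of_le (by norm_num) h4
    · rw [div_le_iff₀ hε] at h5
      rw [div_le_div_iff₀ (by linarith) (by norm_num)]
      linarith
  have hpt : ∀ x, (bX T f N x - bX T f N' x) ^ 2 ≤ 2 * (aX T f un N x - aX T f un N' x) ^ 2 + ε / 2 := by
    intro x
    rw [bX_eq, bX_eq]
    have hn := hsm N hN
    have hn' := hsm N' hN'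
    have a1 := abs_le.mp (phi_abs (T := T) hb (un N) x)
    have a2 := abs_le.mp (phi_abs (T := T) hb (un N') x)
    have a3 := abs_le.mp (phi_abs (T := T) hb (un 0) x)
    have b0 : (0 : ℝ) ≤ 1 / N := by positivity
    have b0' : (0 : ℝ) ≤ 1 / N' := by positivity
    set e1 := 1 / (N : ℝ) * (phi T f (un N) x - phi T f (un 0) x) with he1
    set e2 := 1 / (N' : ℝ) * (phi T f (un N') x - phi T f (un 0) x) with he2
    have c1 : |e1| ≤ 1 / N * 2 := by
      rw [he1, abs_mul, abs_of_nonneg b0]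
      exact mul_le_mul_of_nonneg_left (abs_le.mpr ⟨by linarith [a1.1, a3.2], by linarith [a1.2, a3.1]⟩) b0
    have c2 : |e2| ≤ 1 / N' * 2 := by
      rw [he2, abs_mul, abs_of_nonneg b0']
      exact mul_le_mul_of_nonneg_left (abs_le.mpr ⟨by linarith [a2.1, a3.2], by linarith [a2.2, a3.1]⟩) b0'
    have c3 : |e1 - e2| ≤ |e1| + |e2| := abs_sub _ _
    have c4 : |e1 - e2| ≤ 1 := by linarith [hn.1, hn'.1]
    have c5 : |e1 - e2| ≤ ε / 4 := by linarith [hn.2, hn'.2]
    have c6 : (e1 - e2) ^ 2 ≤ ε / 4 := by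
      rw [← sq_abs]
      nlinarith [abs_nonneg (e1 - e2)]
    have e : aX T f un N x + e1 - (aX T f un N' x + e2) = (aX T f un N x - aX T f un N' x) + (e1 - e2) := by ring
    rw [e]
    nlinarith [sq_nonneg ((aX T f un N x - aX T f un N' x) - (e1 - e2))]
  have hi : Integrable (fun x => (aX T f un N x - aX T f un N' x) ^ 2) μ := by
    refine Integrable.of_bound (((aX_meas hf un N).sub (aX_meas hf un N')).pow_const 2).aestronglyMeasurable 4
      (Filter.Eventually.of_forall fun x => ?_)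
    have h1 := abs_le.mp (aX_abs (T := T) hb un N x)
    have h2 := abs_le.mp (aX_abs (T := T) hb un N' x)
    rw [Real.norm_eq_abs, abs_of_nonneg (sq_nonneg _)]
    nlinarith [h1.1, h1.2, h2.1, h2.2]
  have hi' : Integrable (fun x => (bX T f N x - bX T f N' x) ^ 2) μ := by
    refine Integrable.of_bound (((bX_meas hf N).sub (bX_meas hf N')).pow_const 2).aestronglyMeasurable 4
      (Filter.Eventually.of_forall fun x => ?_)
    have h1 := abs_le.mp (bX_abs (T := T) hb N x)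
    have h2 := abs_le.mp (bX_abs (T := T) hb N' x)
    rw [Real.norm_eq_abs, abs_of_nonneg (sq_nonneg _)]
    nlinarith [h1.1, h1.2, h2.1, h2.2]
  have hle : ∫ x, (bX T f N x - bX T f N' x) ^ 2 ∂μ ≤ ∫ x, (2 * (aX T f un N x - aX T f un N' x) ^ 2 + ε / 2) ∂μ :=
    integral_mono hi' ((hi.const_mul 2).add (integrable_const _)) hpt
  rw [integral_add (hi.const_mul 2) (integrable_const _), integral_const_mul] at hle
  simp only [integral_const, probReal_univ, one_smul, smul_eq_mul, one_mul] at hle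
  linarith

/-- M7: the frozen statement from M4 and M6 -/
theorem floor_cauchy_of (hS : IsSusp μ T F th p) (hPM : PetMain F) (hFC : FlowCauchy F) (f : Fin ℓ → X → ℝ)
    (hf : ∀ i, Measurable (f i)) (hb : ∀ i, ∃ C : ℝ, ∀ x, |f i x| ≤ C) (ε : ℝ) (hε : 0 < ε) :
    ∃ M : ℕ, ∀ N ≥ M, ∀ N' ≥ M,
      ∫ x, ((1 / (N : ℝ)) * ∑ n ∈ Finset.Icc 1 N, ∏ i : Fin ℓ,
                  f i ((T.toEquiv ^ ((((i : ℕ) : ℤ) + 1) * ⌊(n : ℝ) * Real.sin (n : ℝ)⌋)) x)
                - (1 / (N' : ℝ)) * ∑ n ∈ Finset.Icc 1 N', ∏ i : Fin ℓ,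
                  f i ((T.toEquiv ^ ((((i : ℕ) : ℤ) + 1) * ⌊(n : ℝ) * Real.sin (n : ℝ)⌋)) x)) ^ 2 ∂μ
            ≤ ε := by
  choose C hC using hb
  set D : ℝ := 1 + ∑ i, |C i| with hD
  have hD1 : 1 ≤ D := by
    have : 0 ≤ ∑ i, |C i| := Finset.sum_nonneg fun i _ => abs_nonneg _
    linarith
  have hD0 : 0 < D := by linarith
  have hCD : ∀ i x, |f i x| ≤ D := by
    intro i x
    have h1 : |C i| ≤ ∑ i, |C i| := Finset.single_le_sum (f := fun i => |C i|) (fun i _ => abs_nonneg _) (Finset.mem_univ i)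
    have := le_abs_self (C i)
    linarith [hC i x]
  set g : Fin ℓ → X → ℝ := fun i x => f i x / D with hg
  have hgm : ∀ i, Measurable (g i) := fun i => (hf i).div_const D
  have hgb : ∀ i x, |g i x| ≤ 1 := by
    intro i x
    simp only [hg]
    rw [abs_div, abs_of_pos hD0, div_le_one hD0]
    exact hCD i x
  have hphi : ∀ u x, phi T f u x = D ^ ℓ * phi T g u x := by
    intro u x
    unfold phi
    simp only [hg]
    rw [Finset.prod_div_distrib, Finset.prod_const, Finset.card_univ, Fintype.card_fin]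
    field_simp
  have hbX : ∀ N x, bX T f N x = D ^ ℓ * bX T g N x := by
    intro N x
    unfold bX
    rw [Finset.sum_congr rfl (fun n _ => hphi (un n) x), ← Finset.mul_sum]
    ring
  obtain ⟨M, hM⟩ := bX_cauchy hS hPM hFC hgm hgb (ε / (D ^ ℓ) ^ 2) (by positivity)
  refine ⟨M, fun N hN N' hN' => ?_⟩
  have h := hM N hN N' hN'
  have e : ∀ x, ((1 / (N : ℝ)) * ∑ n ∈ Finset.Icc 1 N, ∏ i : Fin ℓ,
                  f i ((T.toEquiv ^ ((((i : ℕ) : ℤ) + 1) * ⌊(n : ℝ) * Real.sin (n : ℝ)⌋)) x)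
                - (1 / (N' : ℝ)) * ∑ n ∈ Finset.Icc 1 N', ∏ i : Fin ℓ,
                  f i ((T.toEquiv ^ ((((i : ℕ) : ℤ) + 1) * ⌊(n : ℝ) * Real.sin (n : ℝ)⌋)) x)) ^ 2 =
      (D ^ ℓ) ^ 2 * (bX T g N x - bX T g N' x) ^ 2 := by
    intro x
    have e1 : ((1 / (N : ℝ)) * ∑ n ∈ Finset.Icc 1 N, ∏ i : Fin ℓ,
                  f i ((T.toEquiv ^ ((((i : ℕ) : ℤ) + 1) * ⌊(n : ℝ) * Real.sin (n : ℝ)⌋)) x)
                - (1 / (N' : ℝ)) * ∑ n ∈ Finset.Icc 1 N', ∏ i : Fin ℓ,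
                  f i ((T.toEquiv ^ ((((i : ℕ) : ℤ) + 1) * ⌊(n : ℝ) * Real.sin (n : ℝ)⌋)) x)) = bX T f N x - bX T f N' x := rfl
    rw [e1, hbX, hbX]
    ring
  simp only [e]
  rw [integral_const_mul]
  rw [le_div_iff₀ (by positivity)] at h
  linarith

end Pool.Agent.H62.NS
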