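import Pool.Agent.H62.NS.Grid

/-!
The last step of MP_3ea55a_an: from the averages of the suspension flow along `n sin n` to the
averages of the powers `T^(i floor(n sin n))`.
-/

set_option autoImplicit false
set_option linter.unusedSectionVars false

open MeasureTheory Finset
open scoped BigOperators

namespace Pool.Agent.H62.NS

open Pool.Agent.H63.NS

variable {X Y : Type} [MeasurableSpace X] [MeasurableSpace Y] {ν : Measure Y}
    [IsProbabilityMeasure ν] {μ : Measure X} [IsProbabilityMeasure μ] {T : X ≃ᵐ X} {F : Flow ν} {th : Y → ℝ} {p : Y → X}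

section

variable {ℓ : ℕ} (f : Fin ℓ → X → ℝ)

/-- the product of the functions along `T^(i floor u)` -/
noncomputable def phi (T : X ≃ᵐ X) (f : Fin ℓ → X → ℝ) (u : ℝ) (x : X) : ℝ :=
  ∏ i : Fin ℓ, f i ((T.toEquiv ^ ((((i : ℕ) : ℤ) + 1) * ⌊u⌋)) x)

lemma phi_abs {f : Fin ℓ → X → ℝ} (hb : ∀ i x, |f i x| ≤ 1) (u : ℝ) (x : X) : |phi T f u x| ≤ 1 := by
  unfold phi
  rw [Finset.abs_prod]
  exact Finset.prod_le_one (fun _ _ => abs_nonneg _) (fun i _ => hb i _)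

/-- the exponents -/
def ek (ℓ : ℕ) : Fin (ℓ + 1) → ℤ := Fin.cons 1 (fun i => ((i : ℕ) : ℤ) + 1)

/-- the functions -/
noncomputable def fk (hS : IsSusp μ T F th p) {f : Fin ℓ → X → ℝ} (hf : ∀ i, Measurable (f i))
    (hb : ∀ i x, |f i x| ≤ 1) (q k : ℕ) : Fin (ℓ + 1) → BM Y :=
  Fin.cons (hB hS q k) (fun i => F.T (-((((i : ℕ) : ℝ) + 1) * (((k : ℝ) - 1) / q))) (fB hS (f i) (hf i) (hb i)))

lemma good_fk (hS : IsSusp μ T F th p) {f : Fin ℓ → X → ℝ} (hf : ∀ i, Measurable (f i))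
    (hb : ∀ i x, |f i x| ≤ 1) {q k : ℕ} (hk : k + 2 ≤ q) (j : Fin (ℓ + 1)) : F.Good (fk hS hf hb q k j) := by
  refine Fin.cases ?_ (fun i => ?_) j
  · exact good_hB hS hk
  · exact (good_fB hS (hf i) (hb i)).T _

/-- the product of the flow factors in the window -/
lemma prod_ek (hS : IsSusp μ T F th p) {f : Fin ℓ → X → ℝ} (hf : ∀ i, Measurable (f i))
    (hb : ∀ i x, |f i x| ≤ 1) {q k : ℕ} (hk : 1 ≤ k) (hkq : k + 2 ≤ q) (hq : 3 * ℓ + 2 ≤ q) (u : ℝ) (y : Y)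
    (hy : th y < 1 / q) :
    ((∏ j, F.T ((ek ℓ j : ℝ) * u) (fk hS hf hb q k j) : BM Y) : Y → ℝ) y =
      hat q k (Int.fract (th y + u)) * phi T f u (p y) := by
  rw [Fin.prod_univ_succ, BM.mul_ap, BM.prod_ap]
  have e0 : ((F.T ((ek ℓ 0 : ℝ) * u) (fk hS hf hb q k 0) : BM Y) : Y → ℝ) y = hat q k (Int.fract (th y + u)) := by
    have e1 : ((ek ℓ 0 : ℤ) : ℝ) * u = u := by
      unfold ek
      rw [Fin.cons_zero]
      push_cast
      ring
    rw [e1]
    exact T_cB hS (hat_cont q k).measurable (abs_hat_le q k) u y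
  rw [e0]
  by_cases hh : hat q k (Int.fract (th y + u)) = 0
  · rw [hh, zero_mul, zero_mul]
  · congr 1
    unfold phi
    apply Finset.prod_congr rfl
    intro i _
    have e1 : ((ek ℓ i.succ : ℤ) : ℝ) = ((i : ℕ) : ℝ) + 1 := by
      unfold ek
      rw [Fin.cons_succ]
      push_cast
      ring
    have e2 : fk hS hf hb q k i.succ =
        F.T (-((((i : ℕ) : ℝ) + 1) * (((k : ℝ) - 1) / q))) (fB hS (f i) (hf i) (hb i)) := rfl
    rw [e1, e2, F.T_T, T_fB]
    have h := floor_id hk hkq hq (hS.th0 y) hy hh (i := (i : ℕ) + 1) (by have := i.2; omega)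
    have e3 : th y + ((((i : ℕ) : ℝ) + 1) * u + -((((i : ℕ) : ℝ) + 1) * (((k : ℝ) - 1) / q))) =
        th y + (((i : ℕ) + 1 : ℕ) : ℝ) * (u - ((k : ℝ) - 1) / q) := by
      push_cast
      ring
    rw [e3, h]
    push_cast
    rfl

/-- decomposition of the product in the window -/
lemma phi_dec (hS : IsSusp μ T F th p) {f : Fin ℓ → X → ℝ} (hf : ∀ i, Measurable (f i))
    (hb : ∀ i x, |f i x| ≤ 1) {q : ℕ} (hq : 3 * ℓ + 2 ≤ q) (hq2 : 2 ≤ q) (u : ℝ) (y : Y)
    (hy : th y < 1 / q) :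
    |phi T f u (p y) - ∑ k ∈ Ico 1 (q - 1), ((∏ j, F.T ((ek ℓ j : ℝ) * u) (fk hS hf hb q k j) : BM Y) : Y → ℝ) y| ≤
      (F.T u (rB hS hq2) : Y → ℝ) y := by
  have e1 : ∑ k ∈ Ico 1 (q - 1), ((∏ j, F.T ((ek ℓ j : ℝ) * u) (fk hS hf hb q k j) : BM Y) : Y → ℝ) y =
      (1 - rem q (Int.fract (th y + u))) * phi T f u (p y) := by
    rw [← sum_hat hq2 (Int.fract (th y + u)), add_sub_cancel_right, Finset.sum_mul]
    apply Finset.sum_congr rfl
    intro k hk
    rw [Finset.mem_Ico] at hk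
    exact prod_ek hS hf hb hk.1 (by omega) hq u y hy
  have e2 : (F.T u (rB hS hq2) : Y → ℝ) y = rem q (Int.fract (th y + u)) :=
    T_cB hS (rem_cont q).measurable (abs_rem_le hq2) u y
  rw [e1, e2]
  have e3 : phi T f u (p y) - (1 - rem q (Int.fract (th y + u))) * phi T f u (p y) =
      rem q (Int.fract (th y + u)) * phi T f u (p y) := by ring
  rw [e3, abs_mul, abs_of_nonneg (rem_nonneg _ _)]
  exact mul_le_of_le_one_right (rem_nonneg _ _) (phi_abs hb _ _)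

end

section av

variable {ℓ : ℕ}

/-- the averages on `X` -/
noncomputable def aX (T : X ≃ᵐ X) (f : Fin ℓ → X → ℝ) (u : ℕ → ℝ) (N : ℕ) (x : X) : ℝ :=
  av (range N) (fun m => phi T f (u m) x)

/-- the averages with a hat on the suspension -/
noncomputable def aK (hS : IsSusp μ T F th p) {f : Fin ℓ → X → ℝ} (hf : ∀ i, Measurable (f i))
    (hb : ∀ i x, |f i x| ≤ 1) (q k : ℕ) (u : ℕ → ℝ) (N : ℕ) : BM Y :=
  av (range N) (fun m => ∏ j, F.T ((ek ℓ j : ℝ) * u m) (fk hS hf hb q k j))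

/-- the averages of the remainder -/
noncomputable def aR (hS : IsSusp μ T F th p) {q : ℕ} (hq : 2 ≤ q) (u : ℕ → ℝ) (N : ℕ) : BM Y :=
  av (range N) (fun m => F.T (u m) (rB hS hq))

lemma aX_dec (hS : IsSusp μ T F th p) {f : Fin ℓ → X → ℝ} (hf : ∀ i, Measurable (f i))
    (hb : ∀ i x, |f i x| ≤ 1) {q : ℕ} (hq : 3 * ℓ + 2 ≤ q) (hq2 : 2 ≤ q) (u : ℕ → ℝ) (N : ℕ) (y : Y)
    (hy : th y < 1 / q) :
    |aX T f u N (p y) - ∑ k ∈ Ico 1 (q - 1), (aK hS hf hb q k u N : Y → ℝ) y| ≤ (aR hS hq2 u N : Y → ℝ) y := by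
  have e1 : ∑ k ∈ Ico 1 (q - 1), (aK hS hf hb q k u N : Y → ℝ) y =
      av (range N) (fun m => ∑ k ∈ Ico 1 (q - 1),
        ((∏ j, F.T ((ek ℓ j : ℝ) * u m) (fk hS hf hb q k j) : BM Y) : Y → ℝ) y) := by
    unfold aK
    rw [Finset.sum_congr rfl (fun k _ => av_ap _ _ y)]
    unfold av
    rw [← Finset.smul_sum, Finset.sum_comm]
  rw [e1]
  unfold aX aR
  rw [← av_sub, av_ap]
  refine (abs_av_le_av _ _).trans (av_mono ?_)
  intro m _
  exact phi_dec hS hf hb hq hq2 (u m) y hy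

lemma aR_nonneg (hS : IsSusp μ T F th p) {q : ℕ} (hq : 2 ≤ q) (u : ℕ → ℝ) (N : ℕ) (y : Y) :
    0 ≤ (aR hS hq u N : Y → ℝ) y := by
  unfold aR
  rw [av_ap]
  exact av_nonneg (fun m _ => rem_nonneg _ _)

lemma aR_le (hS : IsSusp μ T F th p) {q : ℕ} (hq : 2 ≤ q) (u : ℕ → ℝ) (N : ℕ) (y : Y) :
    (aR hS hq u N : Y → ℝ) y ≤ 1 := by
  unfold aR
  rw [av_ap]
  have h : |av (range N) (fun i => (F.T (u i) (rB hS hq) : Y → ℝ) y)| ≤ 1 :=
    abs_av_le' zero_le_one (fun m _ => abs_rem_le hq _)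
  exact (le_abs_self _).trans h

/-- pointwise estimate in the window -/
lemma sq_dec (hS : IsSusp μ T F th p) {f : Fin ℓ → X → ℝ} (hf : ∀ i, Measurable (f i))
    (hb : ∀ i x, |f i x| ≤ 1) {q : ℕ} (hq : 3 * ℓ + 2 ≤ q) (hq2 : 2 ≤ q) (u : ℕ → ℝ) (N N' : ℕ) (y : Y)
    (hy : th y < 1 / q) :
    (aX T f u N (p y) - aX T f u N' (p y)) ^ 2 ≤
      2 * q * ∑ k ∈ Ico 1 (q - 1), ((aK hS hf hb q k u N - aK hS hf hb q k u N' : BM Y) : Y → ℝ) y ^ 2 +
        4 * ((aR hS hq2 u N : Y → ℝ) y + (aR hS hq2 u N' : Y → ℝ) y) := by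
  have h1 := aX_dec hS hf hb hq hq2 u N y hy
  have h2 := aX_dec hS hf hb hq hq2 u N' y hy
  have r0 := aR_nonneg hS hq2 u N y
  have r0' := aR_nonneg hS hq2 u N' y
  have r1 := aR_le hS hq2 u N y
  have r1' := aR_le hS hq2 u N' y
  set R := (aR hS hq2 u N : Y → ℝ) y
  set R' := (aR hS hq2 u N' : Y → ℝ) y
  set S := ∑ k ∈ Ico 1 (q - 1), (aK hS hf hb q k u N : Y → ℝ) y
  set S' := ∑ k ∈ Ico 1 (q - 1), (aK hS hf hb q k u N' : Y → ℝ) y
  set a := aX T f u N (p y)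
  set a' := aX T f u N' (p y)
  have hE : |(a - a') - (S - S')| ≤ R + R' := by
    have e : (a - a') - (S - S') = (a - S) - (a' - S') := by ring
    rw [e]
    exact (abs_sub _ _).trans (add_le_add h1 h2)
  have hE2 : ((a - a') - (S - S')) ^ 2 ≤ 2 * (R + R') := by
    have h3 : ((a - a') - (S - S')) ^ 2 ≤ (R + R') ^ 2 := sq_le_sq' (abs_le.mp hE).1 (abs_le.mp hE).2
    nlinarith
  have hS2 : (S - S') ^ 2 ≤ q * ∑ k ∈ Ico 1 (q - 1), ((aK hS hf hb q k u N - aK hS hf hb q k u N' : BM Y) : Y → ℝ) y ^ 2 := by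
    have e : S - S' = ∑ k ∈ Ico 1 (q - 1), ((aK hS hf hb q k u N - aK hS hf hb q k u N' : BM Y) : Y → ℝ) y := by
      rw [← Finset.sum_sub_distrib]
      rfl
    rw [e]
    have h4 := sq_sum_le_card_mul_sum_sq (s := Ico 1 (q - 1))
      (f := fun k => ((aK hS hf hb q k u N - aK hS hf hb q k u N' : BM Y) : Y → ℝ) y)
    refine h4.trans (mul_le_mul_of_nonneg_right ?_ (Finset.sum_nonneg fun k _ => sq_nonneg _))
    rw [Nat.card_Ico]
    exact_mod_cast (by omega : q - 1 - 1 ≤ q)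
  have h5 : (a - a') ^ 2 ≤ 2 * (S - S') ^ 2 + 2 * ((a - a') - (S - S')) ^ 2 := by
    nlinarith [sq_nonneg ((S - S') - ((a - a') - (S - S')))]
  linarith

end av

section final

variable {ℓ : ℕ}

/-- M4, Cauchy form -/
def FlowCauchy (F : Flow ν) : Prop := ∀ (n : ℕ) (e : Fin n → ℤ) (f : Fin n → BM Y), (∀ j, F.Good (f j)) →
    ∀ ε : ℝ, 0 < ε → ∃ M : ℕ, ∀ N ≥ M, ∀ N' ≥ M,
      I ν ((av (range N) (fun m => ∏ j, F.T (e j * ((m : ℝ) * Real.sin m)) (f j)) -
        av (range N') (fun m => ∏ j, F.T (e j * ((m : ℝ) * Real.sin m)) (f j))) ^ 2) ≤ ε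

/-- M4, main form -/
def PetMain (F : Flow ν) : Prop := ∀ (n : ℕ) (e : Fin n → ℤ) (f : Fin n → BM Y), (∀ j, F.Good (f j)) →
    ∀ ε : ℝ, 0 < ε → ∃ M : ℕ, ∀ N ≥ M,
      I ν ((av (range N) (fun m => ∏ j, F.T (e j * ((m : ℝ) * Real.sin m)) (f j)) -
        av (range (N ^ 2 * 2 ^ N)) (fun m => ∏ j, F.T (e j * ((m : ℝ) / 2 ^ N)) (f j))) ^ 2) ≤ ε

/-- `n sin n` -/
noncomputable def un (n : ℕ) : ℝ := (n : ℝ) * Real.sin n

lemma aX_meas {f : Fin ℓ → X → ℝ} (hf : ∀ i, Measurable (f i)) (u : ℕ → ℝ) (N : ℕ) :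
    Measurable (aX T f u N) := by
  have hT : ∀ n : ℤ, Measurable (fun x : X => (T.toEquiv ^ n) x) := by
    have hn : ∀ n : ℕ, Measurable (fun x : X => (T.toEquiv ^ n) x) ∧ Measurable (fun x : X => (T.toEquiv ^ n).symm x) := by
      intro n
      induction n with
      | zero =>
        simp only [pow_zero]
        exact ⟨measurable_id, measurable_id⟩
      | succ n ih =>
        refine ⟨?_, ?_⟩
        · have e : (fun x : X => (T.toEquiv ^ (n + 1)) x) = fun x => (T.toEquiv ^ n) (T x) := by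
            funext x; rw [pow_succ]; rfl
          rw [e]; exact ih.1.comp T.measurable
        · have e : (fun x : X => (T.toEquiv ^ (n + 1)).symm x) = fun x => T.symm ((T.toEquiv ^ n).symm x) := by
            funext x; rw [pow_succ]; rfl
          rw [e]; exact T.symm.measurable.comp ih.2
    intro n
    cases n with
    | ofNat n => simpa using (hn n).1
    | negSucc n =>
      have e : (fun x : X => (T.toEquiv ^ (Int.negSucc n)) x) = fun x => (T.toEquiv ^ (n + 1)).symm x := by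
        funext x; rw [zpow_negSucc]; rfl
      rw [e]; exact (hn (n + 1)).2
  unfold aX av phi
  simp only [smul_eq_mul]
  exact (Finset.measurable_sum _ fun m _ => Finset.measurable_prod _ fun i _ => (hf i).comp (hT _)).const_mul _

lemma aX_abs {f : Fin ℓ → X → ℝ} (hb : ∀ i x, |f i x| ≤ 1) (u : ℕ → ℝ) (N : ℕ) (x : X) : |aX T f u N x| ≤ 1 := by
  unfold aX
  exact abs_av_le' zero_le_one (fun m _ => phi_abs hb _ _)

/-- I|g| is small if I(g^2) is small -/
lemma I_babs_le (g : BM Y) {c : ℝ} (hc : 0 ≤ c) (h : I ν (g ^ 2) ≤ c ^ 2) : I ν (babs g) ≤ c := by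
  have h1 := I_sq_le ν (babs g)
  have e : (babs g) ^ 2 = g ^ 2 := by
    apply Subtype.ext
    funext y
    rw [BM.pow_ap, BM.pow_ap, babs_ap, sq_abs]
  rw [e] at h1
  by_contra h2
  have h3 : c < I ν (babs g) := not_le.mp h2
  nlinarith [h1.trans h]

/-- the integral over the window -/
lemma window_bound (hS : IsSusp μ T F th p) {f : Fin ℓ → X → ℝ} (hf : ∀ i, Measurable (f i))
    (hb : ∀ i x, |f i x| ≤ 1) {q : ℕ} (hq : 3 * ℓ + 2 ≤ q) (hq2 : 2 ≤ q) (u : ℕ → ℝ) (N N' : ℕ)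
    (hN : 1 ≤ N) (hN' : 1 ≤ N') (hG : 2 * (q : ℝ) / 2 ^ N ≤ 1 / q) (hG' : 2 * (q : ℝ) / 2 ^ N' ≤ 1 / q) :
    1 / q * ∫ x, (aX T f u N x - aX T f u N' x) ^ 2 ∂μ ≤
      2 * q * ∑ k ∈ Ico 1 (q - 1), I ν ((aK hS hf hb q k u N - aK hS hf hb q k u N') ^ 2) +
        4 * (I ν (babs (aR hS hq2 u N - gB hS hq2 N)) + I ν (babs (aR hS hq2 u N' - gB hS hq2 N'))) +
        32 / q * (1 / q) := by
  have hq' : (2 : ℝ) ≤ q := by exact_mod_cast hq2
  have hq0 : (0 : ℝ) < q := by linarith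
  have hd0 : (0 : ℝ) ≤ 1 / q := by positivity
  have hd1 : (1 : ℝ) / q ≤ 1 := by rw [div_le_one hq0]; linarith
  have hm : Measurable (fun x => (aX T f u N x - aX T f u N' x) ^ 2) :=
    ((aX_meas hf u N).sub (aX_meas hf u N')).pow_const 2
  have hD : ∀ x, |(aX T f u N x - aX T f u N' x) ^ 2| ≤ 4 := by
    intro x
    have h1 := abs_le.mp (aX_abs (T := T) hb u N x)
    have h2 := abs_le.mp (aX_abs (T := T) hb u N' x)
    rw [abs_of_nonneg (sq_nonneg _)]
    nlinarith [h1.1, h1.2, h2.1, h2.2]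
  rw [← hS.win _ hm ⟨4, hD⟩ _ hd0 hd1]
  have hw : Measurable (fun y => if th y < 1 / (q : ℝ) then (1 : ℝ) else 0) :=
    Measurable.ite (measurableSet_lt hS.mth measurable_const) measurable_const measurable_const
  have hwi : Integrable (fun y => if th y < 1 / (q : ℝ) then (1 : ℝ) else 0) ν :=
    Integrable.of_bound hw.aestronglyMeasurable 1 (Filter.Eventually.of_forall fun y => by
      rw [Real.norm_eq_abs]
      split_ifs <;> simp)
  set B : BM Y := (2 * (q : ℝ)) • (∑ k ∈ Ico 1 (q - 1), (aK hS hf hb q k u N - aK hS hf hb q k u N') ^ 2) +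
    (4 : ℝ) • (babs (aR hS hq2 u N - gB hS hq2 N) + babs (aR hS hq2 u N' - gB hS hq2 N')) with hB
  have hBI : I ν B = 2 * q * ∑ k ∈ Ico 1 (q - 1), I ν ((aK hS hf hb q k u N - aK hS hf hb q k u N') ^ 2) +
        4 * (I ν (babs (aR hS hq2 u N - gB hS hq2 N)) + I ν (babs (aR hS hq2 u N' - gB hS hq2 N'))) := by
    rw [hB, map_add, map_smul, map_smul, map_sum, map_add, smul_eq_mul, smul_eq_mul]
  have hBy : ∀ y, (B : Y → ℝ) y = 2 * q * ∑ k ∈ Ico 1 (q - 1), ((aK hS hf hb q k u N - aK hS hf hb q k u N' : BM Y) : Y → ℝ) y ^ 2 +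
      4 * (|(aR hS hq2 u N : Y → ℝ) y - (gB hS hq2 N : Y → ℝ) y| + |(aR hS hq2 u N' : Y → ℝ) y - (gB hS hq2 N' : Y → ℝ) y|) := by
    intro y
    rw [hB, BM.add_ap, BM.smul_ap, BM.smul_ap, BM.sum_ap, BM.add_ap, babs_ap, babs_ap, BM.sub_ap, BM.sub_ap]
    rfl
  have hB0 : ∀ y, 0 ≤ (B : Y → ℝ) y := by
    intro y
    rw [hBy]
    have := Finset.sum_nonneg (s := Ico 1 (q - 1))
      (f := fun k => ((aK hS hf hb q k u N - aK hS hf hb q k u N' : BM Y) : Y → ℝ) y ^ 2) (fun k _ => sq_nonneg _)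
    positivity
  have hle : ∫ y, (if th y < 1 / (q : ℝ) then (aX T f u N (p y) - aX T f u N' (p y)) ^ 2 else 0) ∂ν ≤
      ∫ y, ((B : Y → ℝ) y + 32 / q * (if th y < 1 / (q : ℝ) then (1 : ℝ) else 0)) ∂ν := by
    apply integral_mono
    · refine Integrable.of_bound ?_ 4 (Filter.Eventually.of_forall fun y => ?_)
      · exact (Measurable.ite (measurableSet_lt hS.mth measurable_const) (hm.comp hS.mp)
          measurable_const).aestronglyMeasurable
      · rw [Real.norm_eq_abs]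
        split_ifs with h
        · exact hD (p y)
        · simp
    · exact (bint ν B).add (hwi.const_mul _)
    · intro y
      by_cases h : th y < 1 / (q : ℝ)
      · simp only [if_pos h, mul_one]
        have h1 := sq_dec hS hf hb hq hq2 u N N' y h
        rw [hBy]
        have h2 := gB_le hS hq2 hN y
        have h3 := gB_le hS hq2 hN' y
        have h4 := le_abs_self ((aR hS hq2 u N : Y → ℝ) y - (gB hS hq2 N : Y → ℝ) y)
        have h5 := le_abs_self ((aR hS hq2 u N' : Y → ℝ) y - (gB hS hq2 N' : Y → ℝ) y)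
        have e3 : (3 : ℝ) / q = 3 * (1 / q) := by ring
        have e32 : (32 : ℝ) / q = 32 * (1 / q) := by ring
        rw [e3] at h2 h3
        rw [e32]
        linarith
      · simp only [if_neg h, mul_zero, add_zero]
        exact hB0 y
  refine hle.trans (le_of_eq ?_)
  rw [integral_add (bint ν B) (hwi.const_mul _), integral_const_mul, win_one hS hd0 hd1, ← I_def, hBI]

/-- the averages on `X` are Cauchy, for functions bounded by one -/
theorem aX_cauchy (hS : IsSusp μ T F th p) (hPM : PetMain F) (hFC : FlowCauchy F) {f : Fin ℓ → X → ℝ}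
    (hf : ∀ i, Measurable (f i)) (hb : ∀ i x, |f i x| ≤ 1) (ε : ℝ) (hε : 0 < ε) :
    ∃ M : ℕ, ∀ N ≥ M, ∀ N' ≥ M, ∫ x, (aX T f un N x - aX T f un N' x) ^ 2 ∂μ ≤ ε := by
  obtain ⟨q0, hq0⟩ := exists_nat_ge (64 / ε)
  set q : ℕ := max q0 (3 * ℓ + 2) with hqd
  have hq : 3 * ℓ + 2 ≤ q := le_max_right _ _
  have hq2 : 2 ≤ q := by omega
  have hqe : 64 / ε ≤ q := hq0.trans (by exact_mod_cast le_max_left _ _)
  have hqr : (2 : ℝ) ≤ q := by exact_mod_cast hq2
  have hqp : (0 : ℝ) < q := by linarith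
  have hqe' : 64 ≤ ε * q := by
    rw [div_le_iff₀ hε] at hqe
    linarith
  -- the hats
  have h1 : ∀ k : ℕ, ∃ M : ℕ, k ∈ Ico 1 (q - 1) → ∀ N ≥ M, ∀ N' ≥ M,
      I ν ((aK hS hf hb q k un N - aK hS hf hb q k un N') ^ 2) ≤ ε / (8 * q ^ 3) := by
    intro k
    by_cases hk : k ∈ Ico 1 (q - 1)
    · have hk2 : k + 2 ≤ q := by
        rw [Finset.mem_Ico] at hk; omega
      obtain ⟨M, hM⟩ := hFC (ℓ + 1) (ek ℓ) (fk hS hf hb q k) (good_fk hS hf hb hk2) (ε / (8 * q ^ 3)) (by positivity)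
      exact ⟨M, fun _ => hM⟩
    · exact ⟨0, fun h => absurd h hk⟩
  choose Mk hMk using h1
  -- the remainder
  obtain ⟨M2, hM2⟩ := hPM 1 (fun _ => 1) (fun _ => rB hS hq2) (fun _ => good_rB hS hq2) ((ε / (32 * q)) ^ 2)
    (by positivity)
  have hR : ∀ N ≥ M2, I ν (babs (aR hS hq2 un N - gB hS hq2 N)) ≤ ε / (32 * q) := by
    intro N hN
    apply I_babs_le _ (by positivity)
    have h := hM2 N hN
    have e1 : av (range N) (fun m => ∏ j : Fin 1, F.T (((1 : ℤ) : ℝ) * ((m : ℝ) * Real.sin m)) (rB hS hq2)) = aR hS hq2 un N := by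
      unfold aR
      apply av_congr
      intro m _
      rw [Fin.prod_univ_one]
      congr 1
      unfold un
      push_cast
      rw [one_mul]
    have e2 : av (range (N ^ 2 * 2 ^ N)) (fun m => ∏ j : Fin 1, F.T (((1 : ℤ) : ℝ) * ((m : ℝ) / 2 ^ N)) (rB hS hq2)) = gB hS hq2 N := by
      unfold gB
      apply av_congr
      intro m _
      rw [Fin.prod_univ_one]
      congr 1
      push_cast
      rw [one_mul]
    rw [e1, e2] at h
    exact h
  have hsup : ∀ k ∈ Ico 1 (q - 1), Mk k ≤ (Ico 1 (q - 1)).sup Mk := fun k hk => Finset.le_sup hk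
  have hpow : ∀ N : ℕ, 2 * q ^ 2 ≤ N → 2 * (q : ℝ) / 2 ^ N ≤ 1 / q := by
    intro N hN
    have h2 : (2 * (q : ℝ) ^ 2) ≤ 2 ^ N := by
      have h3 : (N : ℝ) ≤ 2 ^ N := by exact_mod_cast (Nat.lt_two_pow_self).le
      have h4 : ((2 * q ^ 2 : ℕ) : ℝ) ≤ N := by exact_mod_cast hN
      push_cast at h4
      linarith
    rw [div_le_div_iff₀ (by positivity) hqp]
    nlinarith
  refine ⟨max (max ((Ico 1 (q - 1)).sup Mk) M2) (max 1 (2 * q ^ 2)), fun N hN N' hN' => ?_⟩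
  have hN1 : (Ico 1 (q - 1)).sup Mk ≤ N := ((le_max_left _ _).trans (le_max_left _ _)).trans hN
  have hN2 : M2 ≤ N := ((le_max_right _ _).trans (le_max_left _ _)).trans hN
  have hN3 : 1 ≤ N := ((le_max_left _ _).trans (le_max_right _ _)).trans hN
  have hN4 : 2 * q ^ 2 ≤ N := ((le_max_right _ _).trans (le_max_right _ _)).trans hN
  have hN1' : (Ico 1 (q - 1)).sup Mk ≤ N' := ((le_max_left _ _).trans (le_max_left _ _)).trans hN'
  have hN2' : M2 ≤ N' := ((le_max_right _ _).trans (le_max_left _ _)).trans hN'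
  have hN3' : 1 ≤ N' := ((le_max_left _ _).trans (le_max_right _ _)).trans hN'
  have hN4' : 2 * q ^ 2 ≤ N' := ((le_max_right _ _).trans (le_max_right _ _)).trans hN'
  have hw := window_bound hS hf hb hq hq2 un N N' hN3 hN3' (hpow N hN4) (hpow N' hN4')
  have hs : ∑ k ∈ Ico 1 (q - 1), I ν ((aK hS hf hb q k un N - aK hS hf hb q k un N') ^ 2) ≤ q * (ε / (8 * q ^ 3)) := by
    have h3 := Finset.sum_le_card_nsmul (Ico 1 (q - 1))
      (fun k => I ν ((aK hS hf hb q k un N - aK hS hf hb q k un N') ^ 2)) (ε / (8 * q ^ 3))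
      (fun k hk => hMk k hk N ((hsup k hk).trans hN1) N' ((hsup k hk).trans hN1'))
    refine h3.trans ?_
    rw [nsmul_eq_mul, Nat.card_Ico]
    refine mul_le_mul_of_nonneg_right ?_ (by positivity)
    exact_mod_cast (by omega : q - 1 - 1 ≤ q)
  have hr := hR N hN2
  have hr' := hR N' hN2'
  have h6 : 1 / (q : ℝ) * ∫ x, (aX T f un N x - aX T f un N' x) ^ 2 ∂μ ≤ 1 / q * ε := by
    refine hw.trans ?_
    have h7 : 2 * (q : ℝ) * (q * (ε / (8 * q ^ 3))) + 4 * (ε / (32 * q) + ε / (32 * q)) + 32 / q * (1 / q) ≤ 1 / q * ε := by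
      have e1 : 2 * (q : ℝ) * (q * (ε / (8 * q ^ 3))) = ε / (4 * q) := by
        field_simp
        ring
      have e2 : 4 * (ε / (32 * q) + ε / (32 * q)) = ε / (4 * (q : ℝ)) := by
        field_simp
        ring
      have e3 : 32 / (q : ℝ) * (1 / q) ≤ ε / (2 * q) := by
        rw [div_mul_div_comm, div_le_div_iff₀ (by positivity) (by positivity)]
        nlinarith
      have e4 : 1 / (q : ℝ) * ε = ε / (4 * q) + ε / (4 * q) + ε / (2 * q) := by
        field_simp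
        ring
      rw [e1, e2, e4]
      linarith
    have h8 : 2 * (q : ℝ) * ∑ k ∈ Ico 1 (q - 1), I ν ((aK hS hf hb q k un N - aK hS hf hb q k un N') ^ 2) ≤
        2 * q * (q * (ε / (8 * q ^ 3))) := mul_le_mul_of_nonneg_left hs (by positivity)
    linarith
  exact le_of_mul_le_mul_left h6 (by positivity)

end final

end Pool.Agent.H62.NS
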