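import Pool.Agent.H62.NS.SuspDef

/-!
The grid averages of the remainder are at most `3/q + 2 q 2^(-N)`.
-/

set_option autoImplicit false
set_option linter.unusedSectionVars false

open MeasureTheory Finset
open scoped BigOperators

namespace Pool.Agent.H62.NS

open Pool.Agent.H63.NS

/-- the grid average -/
noncomputable def gav (q N : ℕ) (θ : ℝ) : ℝ :=
  av (range (N ^ 2 * 2 ^ N)) (fun m => rem q (Int.fract (θ + (m : ℝ) / 2 ^ N)))

lemma sum_shift (g : ℕ → ℝ) (K : ℕ) : ∑ m ∈ range K, g (m + 1) = ∑ m ∈ range K, g m + g K - g 0 := by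
  have h1 := Finset.sum_range_succ' g K
  have h2 := Finset.sum_range_succ g K
  linarith

lemma gav_per (q N : ℕ) : Function.Periodic (gav q N) (1 / 2 ^ N) := by
  intro θ
  unfold gav av
  congr 1
  have h := sum_shift (fun m => rem q (Int.fract (θ + (m : ℝ) / 2 ^ N))) (N ^ 2 * 2 ^ N)
  have e : ∀ m : ℕ, θ + 1 / 2 ^ N + (m : ℝ) / 2 ^ N = θ + ((m + 1 : ℕ) : ℝ) / 2 ^ N := by
    intro m
    push_cast
    ring
  have e4 : ∀ m ∈ range (N ^ 2 * 2 ^ N), rem q (Int.fract (θ + 1 / 2 ^ N + (m : ℝ) / 2 ^ N)) =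
      rem q (Int.fract (θ + ((m + 1 : ℕ) : ℝ) / 2 ^ N)) := fun m _ => by rw [e m]
  rw [Finset.sum_congr rfl e4, h]
  have e2 : θ + ((N ^ 2 * 2 ^ N : ℕ) : ℝ) / 2 ^ N = θ + ((N ^ 2 : ℕ) : ℝ) := by
    push_cast
    field_simp
  have e3 : Int.fract (θ + ((N ^ 2 : ℕ) : ℝ)) = Int.fract θ := Int.fract_add_natCast θ (N ^ 2)
  rw [e2, e3]
  simp

lemma gav_lip {q : ℕ} (hq : 2 ≤ q) (N : ℕ) {s t : ℝ} (h : |s - t| < 1) : |gav q N s - gav q N t| ≤ 2 * q * |s - t| := by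
  unfold gav
  rw [← av_sub]
  apply abs_av_le' (by positivity)
  intro m _
  have e : s + (m : ℝ) / 2 ^ N - (t + (m : ℝ) / 2 ^ N) = s - t := by ring
  have := fract_lip' (rem_lip q) (rem_ends hq) (s := s + (m : ℝ) / 2 ^ N) (t := t + (m : ℝ) / 2 ^ N) (by rw [e]; exact h)
  rwa [e] at this

lemma gav_close {q : ℕ} (hq : 2 ≤ q) {N : ℕ} (hN : 1 ≤ N) (s t : ℝ) : gav q N s ≤ gav q N t + 2 * q / 2 ^ N := by
  set n : ℤ := ⌊(s - t) * 2 ^ N⌋ with hn
  have hp : (0 : ℝ) < 2 ^ N := by positivity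
  have hp2 : (2 : ℝ) ≤ 2 ^ N := by
    calc (2 : ℝ) = 2 ^ 1 := by norm_num
      _ ≤ 2 ^ N := pow_le_pow_right₀ (by norm_num) hN
  have h1 : gav q N (t + n * (1 / 2 ^ N)) = gav q N t := (gav_per q N).int_mul n t
  have ha : (n : ℝ) ≤ (s - t) * 2 ^ N := Int.floor_le _
  have hb : (s - t) * 2 ^ N < n + 1 := Int.lt_floor_add_one _
  have e : s - (t + n * (1 / 2 ^ N)) = ((s - t) * 2 ^ N - n) / 2 ^ N := by
    field_simp
    ring
  have h2 : |s - (t + n * (1 / 2 ^ N))| ≤ 1 / 2 ^ N := by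
    rw [e, abs_of_nonneg (div_nonneg (by linarith) hp.le)]
    exact div_le_div_of_nonneg_right (by linarith) hp.le
  have h3 : (1 : ℝ) / 2 ^ N < 1 := by
    rw [div_lt_one hp]; linarith
  have h4 := gav_lip hq N (h2.trans_lt h3)
  rw [h1] at h4
  have h5 : 2 * (q : ℝ) * |s - (t + n * (1 / 2 ^ N))| ≤ 2 * q * (1 / 2 ^ N) :=
    mul_le_mul_of_nonneg_left h2 (by positivity)
  have h6 : 2 * (q : ℝ) * (1 / 2 ^ N) = 2 * q / 2 ^ N := by ring
  have := le_abs_self (gav q N s - gav q N t)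
  linarith

variable {X Y : Type} [MeasurableSpace X] [MeasurableSpace Y] {ν : Measure Y}
    [IsProbabilityMeasure ν] {μ : Measure X} [IsProbabilityMeasure μ] {T : X ≃ᵐ X} {F : Flow ν} {th : Y → ℝ} {p : Y → X}

/-- the grid average on the suspension -/
noncomputable def gB (hS : IsSusp μ T F th p) {q : ℕ} (hq : 2 ≤ q) (N : ℕ) : BM Y :=
  av (range (N ^ 2 * 2 ^ N)) (fun m => F.T ((m : ℝ) / 2 ^ N) (rB hS hq))

lemma av_ap {ι : Type*} (s : Finset ι) (f : ι → BM Y) (y : Y) :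
    ((av s f : BM Y) : Y → ℝ) y = av s (fun i => (f i : Y → ℝ) y) := by
  unfold av
  rw [BM.smul_ap, BM.sum_ap, smul_eq_mul]

lemma gB_ap (hS : IsSusp μ T F th p) {q : ℕ} (hq : 2 ≤ q) (N : ℕ) (y : Y) :
    (gB hS hq N : Y → ℝ) y = gav q N (th y) := by
  unfold gB gav
  rw [av_ap]
  apply av_congr
  intro m _
  unfold rB
  rw [T_cB]

lemma I_gB (hS : IsSusp μ T F th p) {q : ℕ} (hq : 2 ≤ q) {N : ℕ} (hN : 1 ≤ N) : I ν (gB hS hq N) = I ν (rB hS hq) := by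
  unfold gB
  rw [map_av]
  have e : ∀ m ∈ range (N ^ 2 * 2 ^ N), I ν (F.T ((m : ℝ) / 2 ^ N) (rB hS hq)) = I ν (rB hS hq) := fun m _ => F.I_T _ _
  rw [av_congr e, av_const]
  rw [Finset.nonempty_range_iff]
  positivity

/-- the grid average of the remainder is small everywhere -/
lemma gB_le (hS : IsSusp μ T F th p) {q : ℕ} (hq : 2 ≤ q) {N : ℕ} (hN : 1 ≤ N) (y : Y) :
    (gB hS hq N : Y → ℝ) y ≤ 3 / q + 2 * q / 2 ^ N := by
  have h1 : I ν (((gB hS hq N : Y → ℝ) y - 2 * q / 2 ^ N) • (1 : BM Y)) ≤ I ν (gB hS hq N) := by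
    apply I_mono
    intro y'
    rw [BM.smul_ap, BM.one_ap, mul_one, gB_ap, gB_ap]
    have := gav_close hq hN (th y) (th y')
    linarith
  rw [map_smul, I_one, smul_eq_mul, mul_one, I_gB hS hq hN] at h1
  have h2 := I_rB_le hS hq
  linarith

end Pool.Agent.H62.NS
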