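import Mathlib

/-!
Elementary functions for the last step of MP_3ea55a_an: the ramp, the hats, the remainder, and the
Lipschitz property of 1-periodic functions given on the unit interval.
-/

set_option autoImplicit false

open Finset
open scoped BigOperators

namespace Pool.Agent.H62.NS

/-- the ramp `min 1 (max 0 s)` -/
noncomputable def ramp (s : ℝ) : ℝ := min 1 (max 0 s)

lemma ramp_nonneg (s : ℝ) : 0 ≤ ramp s := le_min zero_le_one (le_max_left _ _)

lemma ramp_le_one (s : ℝ) : ramp s ≤ 1 := min_le_left _ _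

lemma ramp_of_le {s : ℝ} (h : s ≤ 0) : ramp s = 0 := by
  unfold ramp
  rw [max_eq_left h, min_eq_right zero_le_one]

lemma ramp_of_ge {s : ℝ} (h : 1 ≤ s) : ramp s = 1 := by
  unfold ramp
  rw [max_eq_right (zero_le_one.trans h), min_eq_left h]

lemma ramp_mono {s t : ℝ} (h : s ≤ t) : ramp s ≤ ramp t := by
  unfold ramp
  exact min_le_min le_rfl (max_le_max le_rfl h)

lemma ramp_lip (s t : ℝ) : |ramp s - ramp t| ≤ |s - t| := by
  unfold ramp
  have h1 : |min 1 (max 0 s) - min 1 (max 0 t)| ≤ |max 0 s - max 0 t| := by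
    have := abs_min_sub_min_le_max (1 : ℝ) (max 0 s) 1 (max 0 t)
    simpa using this
  have h2 : |max 0 s - max 0 t| ≤ |s - t| := by
    have := abs_max_sub_max_le_max (0 : ℝ) s 0 t
    simpa using this
  exact h1.trans h2

lemma ramp_cont : Continuous ramp := by
  unfold ramp
  fun_prop

/-- the hat with support `(k/q, (k+2)/q)` -/
noncomputable def hat (q k : ℕ) (t : ℝ) : ℝ := ramp (q * t - k) - ramp (q * t - (k + 1))

/-- one minus the sum of the hats with `1 ≤ k`, `k + 2 ≤ q` -/
noncomputable def rem (q : ℕ) (t : ℝ) : ℝ := 1 - ramp (q * t - 1) + ramp (q * t - (q - 1))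

lemma hat_nonneg (q k : ℕ) (t : ℝ) : 0 ≤ hat q k t := by
  unfold hat
  have : ramp (q * t - (k + 1)) ≤ ramp (q * t - k) := ramp_mono (by linarith)
  linarith

lemma hat_le_one (q k : ℕ) (t : ℝ) : hat q k t ≤ 1 := by
  unfold hat
  have h1 := ramp_le_one (q * t - k)
  have h2 := ramp_nonneg (q * t - (k + 1))
  linarith

lemma hat_cont (q k : ℕ) : Continuous (hat q k) := by
  unfold hat
  exact (ramp_cont.comp (by fun_prop)).sub (ramp_cont.comp (by fun_prop))

lemma rem_cont (q : ℕ) : Continuous (rem q) := by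
  unfold rem
  exact (continuous_const.sub (ramp_cont.comp (by fun_prop))).add (ramp_cont.comp (by fun_prop))

lemma hat_lip (q k : ℕ) (s t : ℝ) : |hat q k s - hat q k t| ≤ 2 * q * |s - t| := by
  have h1 := ramp_lip (q * s - k) (q * t - k)
  have h2 := ramp_lip (q * s - (k + 1)) (q * t - (k + 1))
  have e1 : (q : ℝ) * s - k - (q * t - k) = q * (s - t) := by ring
  have e2 : (q : ℝ) * s - (k + 1) - (q * t - (k + 1)) = q * (s - t) := by ring
  rw [e1, abs_mul, Nat.abs_cast] at h1
  rw [e2, abs_mul, Nat.abs_cast] at h2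
  have e : hat q k s - hat q k t = (ramp (q * s - k) - ramp (q * t - k)) -
      (ramp (q * s - (k + 1)) - ramp (q * t - (k + 1))) := by unfold hat; ring
  rw [e]
  have := abs_sub (ramp (q * s - k) - ramp (q * t - k)) (ramp (q * s - (k + 1)) - ramp (q * t - (k + 1)))
  linarith

lemma rem_lip (q : ℕ) (s t : ℝ) : |rem q s - rem q t| ≤ 2 * q * |s - t| := by
  have h1 := ramp_lip (q * s - 1) (q * t - 1)
  have h2 := ramp_lip (q * s - (q - 1)) (q * t - (q - 1))
  have e1 : (q : ℝ) * s - 1 - (q * t - 1) = q * (s - t) := by ring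
  have e2 : (q : ℝ) * s - (q - 1) - (q * t - (q - 1)) = q * (s - t) := by ring
  rw [e1, abs_mul, Nat.abs_cast] at h1
  rw [e2, abs_mul, Nat.abs_cast] at h2
  have e : rem q s - rem q t = (ramp (q * s - (q - 1)) - ramp (q * t - (q - 1))) -
      (ramp (q * s - 1) - ramp (q * t - 1)) := by unfold rem; ring
  rw [e]
  have := abs_sub (ramp (q * s - (q - 1)) - ramp (q * t - (q - 1))) (ramp (q * s - 1) - ramp (q * t - 1))
  linarith

lemma hat_supp {q k : ℕ} {t : ℝ} (h : hat q k t ≠ 0) : (k : ℝ) < q * t ∧ (q : ℝ) * t < k + 2 := by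
  constructor
  · by_contra h1
    push_neg at h1
    apply h
    unfold hat
    rw [ramp_of_le (by linarith), ramp_of_le (by linarith), sub_zero]
  · by_contra h1
    push_neg at h1
    apply h
    unfold hat
    rw [ramp_of_ge (by linarith), ramp_of_ge (by linarith), sub_self]

lemma hat_ends {q k : ℕ} (hk : k + 2 ≤ q) : hat q k 0 = hat q k 1 := by
  have hk' : (k : ℝ) + 2 ≤ q := by exact_mod_cast hk
  have h0 : (0 : ℝ) ≤ k := Nat.cast_nonneg k
  unfold hat
  rw [ramp_of_le (by linarith), ramp_of_le (by linarith), ramp_of_ge (by linarith), ramp_of_ge (by linarith)]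
  norm_num

lemma rem_ends {q : ℕ} (hq : 2 ≤ q) : rem q 0 = rem q 1 := by
  have hq' : (2 : ℝ) ≤ q := by exact_mod_cast hq
  unfold rem
  rw [ramp_of_le (by linarith), ramp_of_le (by linarith), ramp_of_ge (by linarith), ramp_of_ge (by linarith)]
  norm_num

lemma rem_nonneg (q : ℕ) (t : ℝ) : 0 ≤ rem q t := by
  unfold rem
  have h1 := ramp_le_one (q * t - 1)
  have h2 := ramp_nonneg (q * t - (q - 1))
  linarith

lemma rem_le_one {q : ℕ} (hq : 2 ≤ q) (t : ℝ) : rem q t ≤ 1 := by
  have hq' : (2 : ℝ) ≤ q := by exact_mod_cast hq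
  unfold rem
  have : ramp (q * t - (q - 1)) ≤ ramp (q * t - 1) := ramp_mono (by linarith)
  linarith

/-- partition of unity -/
lemma sum_hat {q : ℕ} (hq : 2 ≤ q) (t : ℝ) : ∑ k ∈ Ico 1 (q - 1), hat q k t + rem q t = 1 := by
  have h : ∀ m : ℕ, 1 ≤ m → ∑ k ∈ Ico 1 m, hat q k t = ramp (q * t - 1) - ramp (q * t - m) := by
    intro m hm
    induction m, hm using Nat.le_induction with
    | base => simp
    | succ m hm ih =>
      rw [Finset.sum_Ico_succ_top hm, ih]
      unfold hat
      push_cast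
      ring
  rw [h (q - 1) (by omega)]
  unfold rem
  rw [Nat.cast_sub (by omega : 1 ≤ q)]
  push_cast
  ring

/-- the remainder vanishes away from the ends -/
lemma rem_le {q : ℕ} (hq : 2 ≤ q) (t : ℝ) :
    rem q t ≤ (if t < 2 / q then (1 : ℝ) else 0) + (1 - if t < 1 - 1 / q then (1 : ℝ) else 0) := by
  have hq' : (2 : ℝ) ≤ q := by exact_mod_cast hq
  have hq0 : (0 : ℝ) < q := by linarith
  have h1 := rem_le_one hq t
  by_cases h : t < 2 / q
  · rw [if_pos h]
    by_cases h' : t < 1 - 1 / q
    · rw [if_pos h']; linarith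
    · rw [if_neg h']; linarith
  · rw [if_neg h]
    by_cases h' : t < 1 - 1 / q
    · rw [if_pos h']
      push_neg at h
      have ha : 2 ≤ q * t := by
        rw [div_le_iff₀ hq0] at h
        linarith
      have hb : q * t < q - 1 := by
        have := mul_lt_mul_of_pos_left h' hq0
        have e : (q : ℝ) * (1 - 1 / q) = q - 1 := by field_simp
        linarith
      unfold rem
      rw [ramp_of_ge (by linarith), ramp_of_le (by linarith)]
      norm_num
    · rw [if_neg h']; linarith

/-- a Lipschitz function on the unit interval with equal end values defines a Lipschitz periodic function -/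
lemma fract_lip {g : ℝ → ℝ} {L : ℝ} (hg : ∀ s t, |g s - g t| ≤ L * |s - t|) (h01 : g 0 = g 1)
    {s t : ℝ} (hst : s ≤ t) (hts : t < s + 1) : |g (Int.fract s) - g (Int.fract t)| ≤ L * (t - s) := by
  have hs0 := Int.fract_nonneg s
  have hs1 := Int.fract_lt_one s
  have ht0 := Int.fract_nonneg t
  have ht1 := Int.fract_lt_one t
  have hs := Int.self_sub_floor s
  have ht := Int.self_sub_floor t
  have hm : ⌊s⌋ ≤ ⌊t⌋ := Int.floor_le_floor hst
  have hm' : ⌊t⌋ ≤ ⌊s⌋ + 1 := by
    have : ⌊t⌋ ≤ ⌊s + 1⌋ := Int.floor_le_floor hts.le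
    rwa [Int.floor_add_one] at this
  rcases hm.eq_or_lt with h | h
  · have hc : ((⌊s⌋ : ℤ) : ℝ) = (⌊t⌋ : ℤ) := by rw [h]
    have := hg (Int.fract s) (Int.fract t)
    have e : |Int.fract s - Int.fract t| = t - s := by
      have e1 : Int.fract s - Int.fract t = -(t - s) := by linarith
      rw [e1, abs_neg, abs_of_nonneg (by linarith)]
    rwa [e] at this
  · have h' : ⌊t⌋ = ⌊s⌋ + 1 := by omega
    have hc : ((⌊t⌋ : ℤ) : ℝ) = (⌊s⌋ : ℤ) + 1 := by rw [h']; push_cast; ring
    have h1 := hg (Int.fract s) 1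
    have h2 := hg 0 (Int.fract t)
    have e : g (Int.fract s) - g (Int.fract t) = (g (Int.fract s) - g 1) + (g 0 - g (Int.fract t)) := by
      rw [h01]; ring
    have e1 : |Int.fract s - 1| = 1 - Int.fract s := by
      rw [abs_sub_comm, abs_of_nonneg (by linarith)]
    have e2 : |0 - Int.fract t| = Int.fract t := by
      rw [zero_sub, abs_neg, abs_of_nonneg ht0]
    rw [e1] at h1
    rw [e2] at h2
    have h3 := abs_add_le (g (Int.fract s) - g 1) (g 0 - g (Int.fract t))
    rw [e]
    have e3 : t - s = (1 - Int.fract s) + Int.fract t := by linarith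
    rw [e3, mul_add]
    linarith

lemma fract_lip' {g : ℝ → ℝ} {L : ℝ} (hg : ∀ s t, |g s - g t| ≤ L * |s - t|) (h01 : g 0 = g 1)
    {s t : ℝ} (hst : |s - t| < 1) : |g (Int.fract s) - g (Int.fract t)| ≤ L * |s - t| := by
  rcases le_total s t with h | h
  · have e : |s - t| = t - s := by rw [abs_sub_comm, abs_of_nonneg (by linarith)]
    rw [e] at hst ⊢
    exact fract_lip hg h01 h (by linarith)
  · have e : |s - t| = s - t := abs_of_nonneg (by linarith)
    rw [e] at hst ⊢
    rw [abs_sub_comm]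
    exact fract_lip hg h01 h (by linarith)

end Pool.Agent.H62.NS
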