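import Pool.Agent.H62.NS.SuspDef

/-!
The suspension flow of an invertible measure preserving transformation, on `UnitAddCircle × X`.
-/

set_option autoImplicit false
set_option linter.unusedSectionVars false

open MeasureTheory Finset
open scoped BigOperators

namespace Pool.Agent.H62.NS

open Pool.Agent.H63.NS

/-- the coordinate in `[0,1)` of a point of the circle -/
noncomputable def tc (a : UnitAddCircle) : ℝ := (AddCircle.equivIco (1 : ℝ) 0 a : ℝ)

lemma tc_nonneg (a : UnitAddCircle) : 0 ≤ tc a := (AddCircle.equivIco (1 : ℝ) 0 a).2.1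

lemma tc_lt (a : UnitAddCircle) : tc a < 1 := by
  have h : tc a < 0 + 1 := (AddCircle.equivIco (1 : ℝ) 0 a).2.2
  rwa [zero_add] at h

lemma tc_meas : Measurable tc :=
  measurable_subtype_coe.comp (AddCircle.measurableEquivIco (1 : ℝ) 0).measurable

lemma coe_tc (a : UnitAddCircle) : ((tc a : ℝ) : UnitAddCircle) = a := AddCircle.coe_equivIco

lemma tc_coe (t : ℝ) : tc (t : UnitAddCircle) = Int.fract t := by
  have h := AddCircle.coe_equivIco_mk_apply (1 : ℝ) t
  unfold tc
  rw [h, div_one, mul_one]

lemma tc_add (a : UnitAddCircle) (t : ℝ) : tc (a + (t : UnitAddCircle)) = Int.fract (tc a + t) := by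
  rw [← tc_coe, AddCircle.coe_add, coe_tc]

instance : IsProbabilityMeasure (volume : Measure UnitAddCircle) := ⟨UnitAddCircle.measure_univ⟩

lemma int_win {d : ℝ} (h0 : 0 ≤ d) (h1 : d ≤ 1) : ∫ a : UnitAddCircle, (if tc a < d then (1 : ℝ) else 0) = d := by
  rw [← UnitAddCircle.integral_preimage 0, zero_add, ← integral_Ico_eq_integral_Ioc]
  have e1 : ∫ a in Set.Ico (0 : ℝ) 1, (if tc ((a : ℝ) : UnitAddCircle) < d then (1 : ℝ) else 0) =
      ∫ a in Set.Ico (0 : ℝ) 1, (Set.Iio d).indicator (fun _ => (1 : ℝ)) a := by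
    apply setIntegral_congr_fun measurableSet_Ico
    intro a ha
    have e2 : Int.fract a = a := Int.fract_eq_self.mpr ha
    simp only [tc_coe, e2, Set.indicator, Set.mem_Iio]
  rw [e1, setIntegral_indicator measurableSet_Iio]
  have e3 : Set.Ico (0 : ℝ) 1 ∩ Set.Iio d = Set.Ico 0 d := by
    ext a
    simp only [Set.mem_inter_iff, Set.mem_Ico, Set.mem_Iio]
    constructor
    · rintro ⟨⟨h2, _⟩, h4⟩
      exact ⟨h2, h4⟩
    · rintro ⟨h2, h3⟩
      exact ⟨⟨h2, h3.trans_le h1⟩, h3⟩
  rw [e3]
  simp [h0]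

variable {X : Type} [MeasurableSpace X] (T : X ≃ᵐ X)

lemma zpow_meas (n : ℤ) : Measurable (fun x : X => (T.toEquiv ^ n) x) := by
  have hn : ∀ n : ℕ, Measurable (fun x : X => (T.toEquiv ^ n) x) ∧ Measurable (fun x : X => (T.toEquiv ^ n).symm x) := by
    intro n
    induction n with
    | zero =>
      simp only [pow_zero]
      exact ⟨measurable_id, measurable_id⟩
    | succ n ih =>
      refine ⟨?_, ?_⟩
      · have e : (fun x : X => (T.toEquiv ^ (n + 1)) x) = fun x => (T.toEquiv ^ n) (T x) := by
          funext x; rw [pow_succ]; rfl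
        rw [e]; exact ih.1.comp T.measurable
      · have e : (fun x : X => (T.toEquiv ^ (n + 1)).symm x) = fun x => T.symm ((T.toEquiv ^ n).symm x) := by
          funext x; rw [pow_succ]; rfl
        rw [e]; exact T.symm.measurable.comp ih.2
  cases n with
  | ofNat n => simpa using (hn n).1
  | negSucc n =>
    have e : (fun x : X => (T.toEquiv ^ (Int.negSucc n)) x) = fun x => (T.toEquiv ^ (n + 1)).symm x := by
      funext x; rw [zpow_negSucc]; rfl
    rw [e]; exact (hn (n + 1)).2

variable {T} {μ : Measure X}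

lemma zpow_mp (hT : MeasurePreserving T μ μ) (n : ℤ) : MeasurePreserving (fun x : X => (T.toEquiv ^ n) x) μ μ := by
  have hn : ∀ n : ℕ, MeasurePreserving (fun x : X => (T.toEquiv ^ n) x) μ μ ∧
      MeasurePreserving (fun x : X => (T.toEquiv ^ n).symm x) μ μ := by
    intro n
    induction n with
    | zero =>
      simp only [pow_zero]
      exact ⟨MeasurePreserving.id μ, MeasurePreserving.id μ⟩
    | succ n ih =>
      refine ⟨?_, ?_⟩
      · have e : (fun x : X => (T.toEquiv ^ (n + 1)) x) = (fun x => (T.toEquiv ^ n) x) ∘ T := by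
          funext x; rw [pow_succ]; rfl
        rw [e]; exact ih.1.comp hT
      · have e : (fun x : X => (T.toEquiv ^ (n + 1)).symm x) = T.symm ∘ (fun x => (T.toEquiv ^ n).symm x) := by
          funext x; rw [pow_succ]; rfl
        rw [e]; exact (hT.symm T).comp ih.2
  cases n with
  | ofNat n => simpa using (hn n).1
  | negSucc n =>
    have e : (fun x : X => (T.toEquiv ^ (Int.negSucc n)) x) = fun x => (T.toEquiv ^ (n + 1)).symm x := by
      funext x; rw [zpow_negSucc]; rfl
    rw [e]; exact (hn (n + 1)).2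

variable [IsProbabilityMeasure μ]

/-- the suspension flow -/
noncomputable def susF (hT : MeasurePreserving T μ μ) : Flow ((volume : Measure UnitAddCircle).prod μ) where
  S t y := (y.1 + (t : UnitAddCircle), (T.toEquiv ^ ⌊tc y.1 + t⌋) y.2)
  mp t := by
    have h1 : MeasurePreserving (fun a : UnitAddCircle => a + (t : UnitAddCircle)) volume volume :=
      measurePreserving_add_right volume (t : UnitAddCircle)
    have hm : Measurable (Function.uncurry (fun (a : UnitAddCircle) (x : X) => (T.toEquiv ^ ⌊tc a + t⌋) x)) := by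
      have h2 : Measurable (fun z : ℤ × X => (T.toEquiv ^ z.1) z.2) :=
        measurable_from_prod_countable_right (fun n => zpow_meas T n)
      have h3 : Measurable (fun z : UnitAddCircle × X => ((⌊tc z.1 + t⌋, z.2) : ℤ × X)) :=
        ((Int.measurable_floor.comp ((tc_meas.comp measurable_fst).add_const t))).prodMk measurable_snd
      exact h2.comp h3
    exact MeasurePreserving.skew_product h1 hm (ae_of_all _ fun a => (zpow_mp hT _).map_eq)
  zero y := by
    have h : ⌊tc y.1 + 0⌋ = 0 := by
      rw [add_zero, Int.floor_eq_zero_iff]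
      exact ⟨tc_nonneg _, tc_lt _⟩
    refine Prod.ext ?_ ?_
    · show y.1 + ((0 : ℝ) : UnitAddCircle) = y.1
      rw [AddCircle.coe_zero, add_zero]
    · show (T.toEquiv ^ ⌊tc y.1 + 0⌋) y.2 = y.2
      rw [h, zpow_zero]
      rfl
  add a b y := by
    refine Prod.ext ?_ ?_
    · show y.1 + ((a + b : ℝ) : UnitAddCircle) = y.1 + (b : UnitAddCircle) + (a : UnitAddCircle)
      rw [AddCircle.coe_add]
      abel
    · show (T.toEquiv ^ ⌊tc y.1 + (a + b)⌋) y.2 =
        (T.toEquiv ^ ⌊tc (y.1 + (b : UnitAddCircle)) + a⌋) ((T.toEquiv ^ ⌊tc y.1 + b⌋) y.2)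
      have h : ⌊tc y.1 + (a + b)⌋ = ⌊tc (y.1 + (b : UnitAddCircle)) + a⌋ + ⌊tc y.1 + b⌋ := by
        rw [tc_add]
        have e : tc y.1 + (a + b) = (Int.fract (tc y.1 + b) + a) + (⌊tc y.1 + b⌋ : ℝ) := by
          have := Int.floor_add_fract (tc y.1 + b)
          linarith
        rw [e, Int.floor_add_intCast]
      rw [h, zpow_add]
      rfl

lemma win_sus {g : X → ℝ} {d : ℝ} (h0 : 0 ≤ d) (h1 : d ≤ 1) :
    ∫ y, (if tc y.1 < d then g y.2 else 0) ∂((volume : Measure UnitAddCircle).prod μ) = d * ∫ x, g x ∂μ := by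
  have e : (fun y : UnitAddCircle × X => if tc y.1 < d then g y.2 else 0) =
      fun y => (if tc y.1 < d then (1 : ℝ) else 0) * g y.2 := by
    funext y
    split_ifs <;> simp
  rw [e, integral_prod_mul (fun a => if tc a < d then (1 : ℝ) else 0) g, int_win h0 h1]

lemma good_sus (hT : MeasurePreserving T μ μ) (f : X → ℝ) (hf : Measurable f) (hb : ∀ x, |f x| ≤ 1) :
    (susF hT).Good (mkBM (fun y : UnitAddCircle × X => f y.2) (hf.comp measurable_snd) 1 (fun _ => hb _)) := by
  refine ⟨fun y => hb _, fun ε hε => ?_⟩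
  refine ⟨min (1 / 2) (ε / 4), lt_min (by norm_num) (by positivity), fun a ha => ?_⟩
  have ha1 : |a| ≤ 1 / 2 := ha.trans (min_le_left _ _)
  have ha2 : |a| ≤ ε / 4 := ha.trans (min_le_right _ _)
  have ha0 : 0 ≤ |a| := abs_nonneg a
  have hm : ∀ d : ℝ, Measurable (fun y : UnitAddCircle × X => if tc y.1 < d then (1 : ℝ) else 0) := fun d =>
    Measurable.ite (measurableSet_lt (tc_meas.comp measurable_fst) measurable_const) measurable_const measurable_const
  have hi : ∀ d : ℝ, Integrable (fun y : UnitAddCircle × X => if tc y.1 < d then (1 : ℝ) else 0)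
      ((volume : Measure UnitAddCircle).prod μ) := fun d =>
    Integrable.of_bound (hm d).aestronglyMeasurable 1 (Filter.Eventually.of_forall fun y => by
      rw [Real.norm_eq_abs]
      split_ifs <;> simp)
  have hi' : ∀ d : ℝ, Integrable (fun y : UnitAddCircle × X => 1 - if tc y.1 < d then (1 : ℝ) else 0)
      ((volume : Measure UnitAddCircle).prod μ) := fun d =>
    (integrable_const _).sub (hi d)
  have hw : ∀ d : ℝ, 0 ≤ d → d ≤ 1 → ∫ y : UnitAddCircle × X, (if tc y.1 < d then (1 : ℝ) else 0)
      ∂((volume : Measure UnitAddCircle).prod μ) = d := by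
    intro d h0 h1
    have := win_sus (μ := μ) (g := fun _ => 1) h0 h1
    rw [this]
    simp
  rw [I_def]
  have h1 : ∫ y, (babs ((susF hT).T a (mkBM (fun y : UnitAddCircle × X => f y.2) (hf.comp measurable_snd) 1 (fun _ => hb _)) -
      mkBM (fun y : UnitAddCircle × X => f y.2) (hf.comp measurable_snd) 1 (fun _ => hb _)) : UnitAddCircle × X → ℝ) y
      ∂((volume : Measure UnitAddCircle).prod μ) ≤
      ∫ y : UnitAddCircle × X, (2 * ((if tc y.1 < |a| then (1 : ℝ) else 0) +
      (1 - if tc y.1 < 1 - |a| then (1 : ℝ) else 0))) ∂((volume : Measure UnitAddCircle).prod μ) := by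
    apply integral_mono (bint _ _)
    · exact ((hi _).add (hi' _)).const_mul 2
    · intro y
      have e1 : (babs ((susF hT).T a (mkBM (fun y : UnitAddCircle × X => f y.2) (hf.comp measurable_snd) 1 (fun _ => hb _)) -
        mkBM (fun y : UnitAddCircle × X => f y.2) (hf.comp measurable_snd) 1 (fun _ => hb _)) : UnitAddCircle × X → ℝ) y =
          |f ((T.toEquiv ^ ⌊tc y.1 + a⌋) y.2) - f y.2| := rfl
      rw [e1]
      have h0 := tc_nonneg y.1
      have h1 := tc_lt y.1
      by_cases hA : tc y.1 < |a|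
      · have h2 := abs_sub (f ((T.toEquiv ^ ⌊tc y.1 + a⌋) y.2)) (f y.2)
        have h3 := hb ((T.toEquiv ^ ⌊tc y.1 + a⌋) y.2)
        have h4 := hb y.2
        simp only [if_pos hA]
        split_ifs <;> linarith
      · by_cases hB : tc y.1 < 1 - |a|
        · have h5 : ⌊tc y.1 + a⌋ = 0 := by
            rw [Int.floor_eq_zero_iff]
            have h6 := not_lt.mp hA
            exact ⟨by linarith [neg_abs_le a], by linarith [le_abs_self a]⟩
          rw [h5, zpow_zero]
          simp [hA, hB]
        · have h2 := abs_sub (f ((T.toEquiv ^ ⌊tc y.1 + a⌋) y.2)) (f y.2)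
          have h3 := hb ((T.toEquiv ^ ⌊tc y.1 + a⌋) y.2)
          have h4 := hb y.2
          simp only [if_neg hA, if_neg hB]
          linarith
  refine h1.trans ?_
  rw [integral_const_mul, integral_add (hi _) (hi' _), integral_sub (integrable_const _) (hi _),
    hw _ ha0 (by linarith), hw _ (by linarith) (by linarith)]
  simp only [integral_const, probReal_univ, smul_eq_mul, mul_one]
  linarith

/-- M6: the suspension -/
theorem isSusp (hT : MeasurePreserving T μ μ) :
    IsSusp μ T (susF hT) (fun y => tc y.1) (fun y => y.2) where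
  mth := tc_meas.comp measurable_fst
  mp := measurable_snd
  th0 y := tc_nonneg _
  th1 y := tc_lt _
  thS a y := tc_add y.1 a
  pS a y := rfl
  good f hf hb := good_sus hT f hf hb
  win g _ _ d h0 h1 := win_sus h0 h1

end Pool.Agent.H62.NS
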