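import Pool.Agent.H62.NS.Final
import Pool.Agent.H62.NS.Sus

/-!
MP_3ea55a_an: `floor_cauchy` (the frozen statement S04431) from `pet_main` and `flow_cauchy` for all flows.
-/

set_option autoImplicit false
set_option linter.unusedSectionVars false

open MeasureTheory Finset
open scoped BigOperators

namespace Pool.Agent.H62.NS

open Pool.Agent.H63.NS

/-- the frozen statement from the two theorems on flows -/
theorem floor_cauchy_main
    (hPM : ∀ (Y : Type) [MeasurableSpace Y] (ν : Measure Y) [IsProbabilityMeasure ν] (F : Flow ν), PetMain F)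
    (hFC : ∀ (Y : Type) [MeasurableSpace Y] (ν : Measure Y) [IsProbabilityMeasure ν] (F : Flow ν), FlowCauchy F)
    (X : Type) [MeasurableSpace X] (μ : Measure X) [IsProbabilityMeasure μ]
    (T : X ≃ᵐ X) (hT : MeasurePreserving T μ μ) (ℓ : ℕ) (f : Fin ℓ → X → ℝ)
    (hf : ∀ i, Measurable (f i)) (hb : ∀ i, ∃ C : ℝ, ∀ x, |f i x| ≤ C) (ε : ℝ) (hε : 0 < ε) :
    ∃ M : ℕ, ∀ N ≥ M, ∀ N' ≥ M,
      ∫ x, ((1 / (N : ℝ)) * ∑ n ∈ Finset.Icc 1 N, ∏ i : Fin ℓ,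
                  f i ((T.toEquiv ^ ((((i : ℕ) : ℤ) + 1) * ⌊(n : ℝ) * Real.sin (n : ℝ)⌋)) x)
                - (1 / (N' : ℝ)) * ∑ n ∈ Finset.Icc 1 N', ∏ i : Fin ℓ,
                  f i ((T.toEquiv ^ ((((i : ℕ) : ℤ) + 1) * ⌊(n : ℝ) * Real.sin (n : ℝ)⌋)) x)) ^ 2 ∂μ
            ≤ ε :=
  floor_cauchy_of (isSusp hT) (hPM _ _ _) (hFC _ _ _) f hf hb ε hε

end Pool.Agent.H62.NS
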