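import Pool.Agent.H63.NS.Av
import Pool.Agent.H62.NS.Hat

/-!
What the last step of MP_3ea55a_an uses of the suspension flow: `IsSusp`; goodness of periodic
Lipschitz functions of the circle coordinate; the floor identity; the mean of the remainder.
-/

set_option autoImplicit false
set_option linter.unusedSectionVars false

open MeasureTheory Finset
open scoped BigOperators

namespace Pool.Agent.H62.NS

open Pool.Agent.H63.NS

/-- `F` is the suspension flow of `T` with circle coordinate `th` and fibre coordinate `p` -/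
structure IsSusp {X Y : Type} [MeasurableSpace X] [MeasurableSpace Y] {ν : Measure Y}
    [IsProbabilityMeasure ν] (μ : Measure X) (T : X ≃ᵐ X) (F : Flow ν) (th : Y → ℝ) (p : Y → X) : Prop where
  mth : Measurable th
  mp : Measurable p
  th0 : ∀ y, 0 ≤ th y
  th1 : ∀ y, th y < 1
  thS : ∀ a y, th (F.S a y) = Int.fract (th y + a)
  pS : ∀ a y, p (F.S a y) = (T.toEquiv ^ ⌊th y + a⌋) (p y)
  good : ∀ (f : X → ℝ) (hf : Measurable f) (hb : ∀ x, |f x| ≤ 1),
    F.Good (mkBM (fun y => f (p y)) (hf.comp mp) 1 (fun _ => hb _))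
  win : ∀ g : X → ℝ, Measurable g → (∃ C : ℝ, ∀ x, |g x| ≤ C) → ∀ d : ℝ, 0 ≤ d → d ≤ 1 →
    ∫ y, (if th y < d then g (p y) else 0) ∂ν = d * ∫ x, g x ∂μ

variable {X Y : Type} [MeasurableSpace X] [MeasurableSpace Y] {ν : Measure Y}
    [IsProbabilityMeasure ν] {μ : Measure X} [IsProbabilityMeasure μ] {T : X ≃ᵐ X} {F : Flow ν} {th : Y → ℝ} {p : Y → X}

/-- a function of the circle coordinate -/
def cB (hS : IsSusp μ T F th p) (g : ℝ → ℝ) (hg : Measurable g) (hb : ∀ t, |g t| ≤ 1) : BM Y :=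
  mkBM (fun y => g (th y)) (hg.comp hS.mth) 1 (fun _ => hb _)

/-- a function of the fibre coordinate -/
def fB (hS : IsSusp μ T F th p) (f : X → ℝ) (hf : Measurable f) (hb : ∀ x, |f x| ≤ 1) : BM Y :=
  mkBM (fun y => f (p y)) (hf.comp hS.mp) 1 (fun _ => hb _)

lemma T_cB (hS : IsSusp μ T F th p) {g : ℝ → ℝ} (hg : Measurable g) (hb : ∀ t, |g t| ≤ 1) (a : ℝ) (y : Y) :
    (F.T a (cB hS g hg hb) : Y → ℝ) y = g (Int.fract (th y + a)) := by
  rw [Flow.T_ap]
  unfold cB
  rw [mkBM_apply, hS.thS]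

lemma T_fB (hS : IsSusp μ T F th p) {f : X → ℝ} (hf : Measurable f) (hb : ∀ x, |f x| ≤ 1) (a : ℝ) (y : Y) :
    (F.T a (fB hS f hf hb) : Y → ℝ) y = f ((T.toEquiv ^ ⌊th y + a⌋) (p y)) := by
  rw [Flow.T_ap]
  unfold fB
  rw [mkBM_apply, hS.pS]

lemma fract_th (hS : IsSusp μ T F th p) (y : Y) : Int.fract (th y) = th y :=
  Int.fract_eq_self.mpr ⟨hS.th0 y, hS.th1 y⟩

/-- goodness of Lipschitz periodic functions -/
lemma good_cB (hS : IsSusp μ T F th p) {g : ℝ → ℝ} (hg : Measurable g) (hb : ∀ t, |g t| ≤ 1) {L : ℝ}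
    (hL : ∀ s t, |g s - g t| ≤ L * |s - t|) (h01 : g 0 = g 1) : F.Good (cB hS g hg hb) := by
  refine ⟨fun y => hb _, fun ε hε => ?_⟩
  have hL0 : 0 ≤ L := by
    have := (abs_nonneg _).trans (hL 1 0)
    simpa using this
  refine ⟨min (1 / 2) (ε / (L + 1)), lt_min (by norm_num) (by positivity), fun a ha => ?_⟩
  apply I_le_of_le
  intro y
  rw [babs_ap, BM.sub_ap, T_cB]
  have e : (cB hS g hg hb : Y → ℝ) y = g (Int.fract (th y)) := by
    rw [fract_th hS]; rfl
  rw [e]
  have ha1 : |th y + a - th y| < 1 := by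
    have e1 : th y + a - th y = a := by ring
    rw [e1]
    exact (ha.trans (min_le_left _ _)).trans_lt (by norm_num)
  refine (fract_lip' hL h01 ha1).trans ?_
  have e1 : th y + a - th y = a := by ring
  rw [e1]
  have h2 : |a| ≤ ε / (L + 1) := ha.trans (min_le_right _ _)
  have h3 : L * |a| ≤ L * (ε / (L + 1)) := mul_le_mul_of_nonneg_left h2 hL0
  refine h3.trans ?_
  rw [mul_div_assoc', div_le_iff₀ (by linarith)]
  nlinarith

/-- the measure of the window -/
lemma win_one (hS : IsSusp μ T F th p) {d : ℝ} (h0 : 0 ≤ d) (h1 : d ≤ 1) :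
    ∫ y, (if th y < d then (1 : ℝ) else 0) ∂ν = d := by
  have := hS.win (fun _ => 1) measurable_const ⟨1, fun _ => by norm_num⟩ d h0 h1
  rw [this]
  simp

section rem

variable {q : ℕ}

lemma abs_rem_le (hq : 2 ≤ q) (t : ℝ) : |rem q t| ≤ 1 := by
  rw [abs_of_nonneg (rem_nonneg q t)]; exact rem_le_one hq t

lemma abs_hat_le (q k : ℕ) (t : ℝ) : |hat q k t| ≤ 1 := by
  rw [abs_of_nonneg (hat_nonneg q k t)]; exact hat_le_one q k t

/-- the remainder as a function on the suspension -/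
noncomputable def rB (hS : IsSusp μ T F th p) (hq : 2 ≤ q) : BM Y := cB hS (rem q) (rem_cont q).measurable (abs_rem_le hq)

/-- the hat as a function on the suspension -/
noncomputable def hB (hS : IsSusp μ T F th p) (q k : ℕ) : BM Y := cB hS (hat q k) (hat_cont q k).measurable (abs_hat_le q k)

lemma good_rB (hS : IsSusp μ T F th p) (hq : 2 ≤ q) : F.Good (rB hS hq) :=
  good_cB hS _ _ (rem_lip q) (rem_ends hq)

lemma good_hB (hS : IsSusp μ T F th p) {k : ℕ} (hk : k + 2 ≤ q) : F.Good (hB hS q k) :=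
  good_cB hS _ _ (hat_lip q k) (hat_ends hk)

lemma good_fB (hS : IsSusp μ T F th p) {f : X → ℝ} (hf : Measurable f) (hb : ∀ x, |f x| ≤ 1) :
    F.Good (fB hS f hf hb) := hS.good f hf hb

/-- the mean of the remainder -/
lemma I_rB_le (hS : IsSusp μ T F th p) (hq : 2 ≤ q) : I ν (rB hS hq) ≤ 3 / q := by
  have hq' : (2 : ℝ) ≤ q := by exact_mod_cast hq
  have hq0 : (0 : ℝ) < q := by linarith
  have hm : ∀ d : ℝ, Measurable (fun y => if th y < d then (1 : ℝ) else 0) := fun d =>
    Measurable.ite (measurableSet_lt hS.mth measurable_const) measurable_const measurable_const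
  have hi : ∀ d : ℝ, Integrable (fun y => if th y < d then (1 : ℝ) else 0) ν := fun d =>
    Integrable.of_bound (hm d).aestronglyMeasurable 1 (Filter.Eventually.of_forall fun y => by
      rw [Real.norm_eq_abs]
      split_ifs <;> simp)
  have hi' : ∀ d : ℝ, Integrable (fun y => 1 - if th y < d then (1 : ℝ) else 0) ν := fun d =>
    (integrable_const _).sub (hi d)
  rw [I_def]
  have h1 : ∫ y, (rB hS hq : Y → ℝ) y ∂ν ≤ ∫ y, ((if th y < 2 / q then (1 : ℝ) else 0) +
      (1 - if th y < 1 - 1 / q then (1 : ℝ) else 0)) ∂ν := by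
    apply integral_mono (bint ν _)
    · exact (hi _).add (hi' _)
    · intro y
      exact rem_le hq (th y)
  have e : ∫ y, ((if th y < 2 / q then (1 : ℝ) else 0) +
      (1 - if th y < 1 - 1 / q then (1 : ℝ) else 0)) ∂ν = 2 / q + (1 - (1 - 1 / q)) := by
    rw [integral_add (hi _) (hi' _), integral_sub (integrable_const _) (hi _),
      win_one hS (by positivity) (by rw [div_le_one hq0]; exact hq'),
      win_one hS (by rw [sub_nonneg, div_le_one hq0]; linarith) (by
        rw [sub_le_self_iff]; positivity)]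
    simp
  rw [e] at h1
  refine h1.trans (le_of_eq ?_)
  field_simp
  norm_num

end rem

section floor

/-- the floor identity: if the hat is nonzero at `th y + u` then `floor (th y + i (u - a)) = i floor u` -/
lemma floor_id {q k ℓ : ℕ} (hk : 1 ≤ k) (hkq : k + 2 ≤ q) (hq : 3 * ℓ + 2 ≤ q) {θ u : ℝ} (h0 : 0 ≤ θ)
    (hθ : θ < 1 / q) (hh : hat q k (Int.fract (θ + u)) ≠ 0) {i : ℕ} (hi : i ≤ ℓ) :
    ⌊θ + (i : ℝ) * (u - ((k : ℝ) - 1) / q)⌋ = (i : ℤ) * ⌊u⌋ := by
  have hq0 : (0 : ℝ) < q := by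
    have : (2 : ℝ) ≤ q := by exact_mod_cast (by omega : 2 ≤ q)
    linarith
  obtain ⟨ha, hb⟩ := hat_supp hh
  have hk' : (1 : ℝ) ≤ k := by exact_mod_cast hk
  have hkq' : (k : ℝ) + 2 ≤ q := by exact_mod_cast hkq
  have hqθ : q * θ < 1 := by
    have := mul_lt_mul_of_pos_left hθ hq0
    have e : (q : ℝ) * (1 / q) = 1 := by field_simp
    rwa [e] at this
  set t := Int.fract (θ + u) with ht
  have hw : (⌊θ + u⌋ : ℝ) + t = θ + u := Int.floor_add_fract (θ + u)
  have ht1 : t < 1 := Int.fract_lt_one _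
  have htθ : θ < t := by
    by_contra h
    have h2 : t ≤ θ := not_lt.mp h
    have : (q : ℝ) * t ≤ q * θ := mul_le_mul_of_nonneg_left h2 hq0.le
    linarith
  have hfl : ⌊u⌋ = ⌊θ + u⌋ := by
    rw [Int.floor_eq_iff]
    constructor
    · linarith
    · linarith
  have hu : u = (⌊u⌋ : ℝ) + (t - θ) := by
    rw [hfl]; linarith
  rw [Int.floor_eq_iff]
  push_cast
  set s := t - θ - ((k : ℝ) - 1) / q with hs
  have hs0 : 0 ≤ s := by
    have : 0 ≤ q * s := by
      have e : (q : ℝ) * s = q * t - q * θ - (k - 1) := by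
        rw [hs]; field_simp
      rw [e]; linarith
    exact nonneg_of_mul_nonneg_right this hq0
  have hs3 : q * s < 3 := by
    have e : (q : ℝ) * s = q * t - q * θ - (k - 1) := by
      rw [hs]; field_simp
    rw [e]
    have : 0 ≤ q * θ := mul_nonneg hq0.le h0
    linarith
  have e : θ + (i : ℝ) * (u - ((k : ℝ) - 1) / q) = i * (⌊u⌋ : ℝ) + (θ + i * s) := by
    rw [hs]
    nth_rewrite 1 [hu]
    ring
  have hi0 : (0 : ℝ) ≤ i := Nat.cast_nonneg i
  have hil : (i : ℝ) ≤ ℓ := by exact_mod_cast hi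
  have hq' : 3 * (ℓ : ℝ) + 2 ≤ q := by exact_mod_cast hq
  rw [e]
  constructor
  · have := mul_nonneg hi0 hs0
    linarith
  · have h1 : q * (θ + i * s) < q * 1 := by
      have h2 : (i : ℝ) * (q * s) ≤ ℓ * 3 := by
        exact mul_le_mul hil hs3.le (mul_nonneg hq0.le hs0) (Nat.cast_nonneg ℓ)
      have e2 : (q : ℝ) * (θ + i * s) = q * θ + i * (q * s) := by ring
      rw [e2]
      linarith
    have h3 := lt_of_mul_lt_mul_left h1 hq0.le
    linarith

end floor

end Pool.Agent.H62.NS
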